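import Pool.Agent.Helper93.GS.Stmts

/-! Module RES: in a finitely generated Engel group a normal subgroup with cyclic quotient is
finitely generated. -/

set_option autoImplicit false

namespace Pool.Agent.Helper93.GS

open Pool.Agent.Helper64.ORStar

section
variable {G : Type} [Group G]

theorem res_one {x g : G} {k : ℕ} (h : eng x g k = 1) : ∀ i, k ≤ i → eng x g i = 1 := by
  intro i hi
  induction i, hi using Nat.le_induction with
  | base => exact h
  | succ i _ ih => simp [eng, ih]

theorem res_conj (x g : G) (i : ℕ) :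
    g * eng x g i * g⁻¹ = (eng x g (i + 1))⁻¹ * eng x g i := by
  simp only [eng]
  group

theorem res_conj' (x g : G) (i : ℕ) :
    g⁻¹ * eng x g i * g = (g⁻¹ * eng x g (i + 1) * g) * eng x g i := by
  simp only [eng]
  group

/-- elements which normalize `M` -/
def res_W (M : Subgroup G) : Subgroup G where
  carrier := {g | (∀ m ∈ M, g * m * g⁻¹ ∈ M) ∧ ∀ m ∈ M, g⁻¹ * m * g ∈ M}
  one_mem' := ⟨fun m hm => by simpa using hm, fun m hm => by simpa using hm⟩
  mul_mem' := by
    rintro a b ⟨ha1, ha2⟩ ⟨hb1, hb2⟩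
    refine ⟨fun m hm => ?_, fun m hm => ?_⟩
    · have := ha1 _ (hb1 m hm)
      have e : a * b * m * (a * b)⁻¹ = a * (b * m * b⁻¹) * a⁻¹ := by group
      rw [e]
      exact this
    · have := hb2 _ (ha2 m hm)
      have e : (a * b)⁻¹ * m * (a * b) = b⁻¹ * (a⁻¹ * m * a) * b := by group
      rw [e]
      exact this
  inv_mem' := by
    rintro a ⟨ha1, ha2⟩
    refine ⟨fun m hm => ?_, fun m hm => ?_⟩
    · rw [inv_inv]
      exact ha2 m hm
    · rw [inv_inv]
      exact ha1 m hm

theorem res_mem_W {M : Subgroup G} {g : G} :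
    g ∈ res_W M ↔ (∀ m ∈ M, g * m * g⁻¹ ∈ M) ∧ ∀ m ∈ M, g⁻¹ * m * g ∈ M := Iff.rfl

theorem res_gen {T : Set G} {g : G} (h1 : ∀ x ∈ T, g * x * g⁻¹ ∈ Subgroup.closure T)
    (h2 : ∀ x ∈ T, g⁻¹ * x * g ∈ Subgroup.closure T) : g ∈ res_W (Subgroup.closure T) := by
  have key : ∀ h : G, (∀ x ∈ T, h * x * h⁻¹ ∈ Subgroup.closure T) →
      ∀ m ∈ Subgroup.closure T, h * m * h⁻¹ ∈ Subgroup.closure T := by
    intro h hh m hm
    induction hm using Subgroup.closure_induction with
    | mem x hx => exact hh x hx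
    | one => simp [Subgroup.one_mem]
    | mul a b _ _ ha hb =>
      have e : h * (a * b) * h⁻¹ = (h * a * h⁻¹) * (h * b * h⁻¹) := by group
      rw [e]
      exact Subgroup.mul_mem _ ha hb
    | inv a _ ha =>
      have e : h * a⁻¹ * h⁻¹ = (h * a * h⁻¹)⁻¹ := by group
      rw [e]
      exact Subgroup.inv_mem _ ha
  refine ⟨key g h1, ?_⟩
  have := key g⁻¹ (by simpa using h2)
  simpa using this

end

theorem st_RES : ST_RES := by
  classical
  intro G _ hFG hE N hN t ht
  obtain ⟨S, hS⟩ := Group.fg_iff.1 hFG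
  obtain ⟨hS, hSf⟩ := hS
  choose a ha using ht
  choose k hk using fun x : G => hE (t ^ a x * x) t
  set c : G → ℕ → G := fun x i => eng (t ^ a x * x) t i with hc
  set T : Set G := {z | ∃ x ∈ S, ∃ i < k x, z = c x i} with hT
  have hTf : T.Finite := by
    have h1 : T = ⋃ x ∈ S, (fun i => c x i) '' (Set.Iio (k x)) := by
      ext z
      simp only [hT, Set.mem_ofPred_eq, Set.mem_iUnion, Set.mem_image, Set.mem_Iio, exists_prop]
      constructor
      · rintro ⟨x, hx, i, hi, rfl⟩
        exact ⟨x, hx, i, hi, rfl⟩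
      · rintro ⟨x, hx, i, hi, rfl⟩
        exact ⟨x, hx, i, hi, rfl⟩
    rw [h1]
    exact hSf.biUnion (fun x _ => (Set.finite_Iio (k x)).image _)
  have hcM : ∀ x ∈ S, ∀ i, c x i ∈ Subgroup.closure T := by
    intro x hx i
    by_cases hi : i < k x
    · exact Subgroup.subset_closure ⟨x, hx, i, hi, rfl⟩
    · have : c x i = 1 := res_one (hk x) i (not_lt.1 hi)
      rw [this]
      exact Subgroup.one_mem _
  have hcN : ∀ x i, c x i ∈ N := by
    intro x i
    induction i with
    | zero => exact ha x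
    | succ i ih =>
      have e : c x (i + 1) = c x i * (t * (c x i)⁻¹ * t⁻¹) := by
        simp only [hc, eng]
        group
      rw [e]
      exact N.mul_mem ih (hN.conj_mem _ (N.inv_mem ih) t)
  have hMN : Subgroup.closure T ≤ N := by
    rw [Subgroup.closure_le]
    rintro z ⟨x, _, i, _, rfl⟩
    exact hcN x i
  have htinv : ∀ x ∈ S, ∀ j i, k x ≤ i + j → t⁻¹ * c x i * t ∈ Subgroup.closure T := by
    intro x hx j
    induction j with
    | zero =>
      intro i hi
      have : c x i = 1 := res_one (hk x) i hi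
      rw [this]
      simp [Subgroup.one_mem]
    | succ j ih =>
      intro i hi
      have e : t⁻¹ * c x i * t = (t⁻¹ * c x (i + 1) * t) * c x i := res_conj' _ _ _
      rw [e]
      exact Subgroup.mul_mem _ (ih (i + 1) (by omega)) (hcM x hx i)
  have htW : t ∈ res_W (Subgroup.closure T) := by
    refine res_gen ?_ ?_
    · rintro z ⟨x, hx, i, _, rfl⟩
      have e : t * c x i * t⁻¹ = (c x (i + 1))⁻¹ * c x i := res_conj _ _ _
      rw [e]
      exact Subgroup.mul_mem _ (Subgroup.inv_mem _ (hcM x hx _)) (hcM x hx i)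
    · rintro z ⟨x, hx, i, _, rfl⟩
      exact htinv x hx (k x) i (by omega)
  have hMW : Subgroup.closure T ≤ res_W (Subgroup.closure T) := by
    intro g hg
    exact ⟨fun m hm => Subgroup.mul_mem _ (Subgroup.mul_mem _ hg hm) (Subgroup.inv_mem _ hg),
      fun m hm => Subgroup.mul_mem _ (Subgroup.mul_mem _ (Subgroup.inv_mem _ hg) hm) hg⟩
  have hx0 : ∀ x ∈ S, x = t ^ (-a x) * c x 0 := by
    intro x _
    simp only [hc, eng]
    rw [zpow_neg, inv_mul_cancel_left]
  have hWtop : res_W (Subgroup.closure T) = ⊤ := by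
    rw [← top_le_iff, ← hS, Subgroup.closure_le]
    intro x hx
    rw [hx0 x hx]
    exact Subgroup.mul_mem _ (Subgroup.zpow_mem _ htW _) (hMW (hcM x hx 0))
  have hnorm : (Subgroup.closure T).Normal := by
    constructor
    intro n hn g
    have : g ∈ res_W (Subgroup.closure T) := by
      rw [hWtop]
      exact Subgroup.mem_top g
    exact this.1 n hn
  have hsup : Subgroup.zpowers t ⊔ Subgroup.closure T = ⊤ := by
    rw [← top_le_iff, ← hS, Subgroup.closure_le]
    intro x hx
    rw [hx0 x hx]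
    exact Subgroup.mul_mem _ (Subgroup.mem_sup_left (Subgroup.zpow_mem_zpowers t _))
      (Subgroup.mem_sup_right (hcM x hx 0))
  -- the exponents
  let A : AddSubgroup ℤ :=
    { carrier := {b | t ^ b ∈ N}
      zero_mem' := by
        show t ^ (0 : ℤ) ∈ N
        rw [zpow_zero]
        exact N.one_mem
      add_mem' := by
        intro b b' hb hb'
        show t ^ (b + b') ∈ N
        rw [zpow_add]
        exact N.mul_mem hb hb'
      neg_mem' := by
        intro b hb
        show t ^ (-b) ∈ N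
        rw [zpow_neg]
        exact N.inv_mem hb }
  have hAmem : ∀ b : ℤ, b ∈ A ↔ t ^ b ∈ N := fun b => Iff.rfl
  obtain ⟨e, he⟩ := Int.subgroup_cyclic A
  have heN : t ^ e ∈ N := by
    rw [← hAmem, he]
    exact AddSubgroup.subset_closure (Set.mem_singleton e)
  rw [Subgroup.fg_iff]
  refine ⟨insert (t ^ e) T, le_antisymm ?_ ?_, hTf.insert _⟩
  · rw [Subgroup.closure_le]
    rintro z (rfl | hz)
    · exact heN
    · exact hMN (Subgroup.subset_closure hz)
  · intro n hn
    have h1 : n ∈ Subgroup.zpowers t ⊔ Subgroup.closure T := by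
      rw [hsup]
      exact Subgroup.mem_top n
    rw [Subgroup.mem_sup_of_normal_right] at h1
    obtain ⟨y, hy, m, hm, rfl⟩ := h1
    obtain ⟨b, rfl⟩ := Subgroup.mem_zpowers_iff.1 hy
    have h2 : t ^ b ∈ N := by
      have := N.mul_mem hn (N.inv_mem (hMN hm))
      rwa [mul_inv_cancel_right] at this
    have h3 : b ∈ A := h2
    rw [he, AddSubgroup.mem_closure_singleton] at h3
    obtain ⟨r, rfl⟩ := h3
    refine Subgroup.mul_mem _ ?_ (Subgroup.closure_mono (Set.subset_insert _ _) hm)
    rw [smul_eq_mul, mul_comm, zpow_mul]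
    exact Subgroup.zpow_mem _ (Subgroup.subset_closure (Set.mem_insert _ _)) _

end Pool.Agent.Helper93.GS
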